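import Mathlib
import Pool.Agent.H1.CM.Targets2
import Pool.Agent.H1.CM.SBasic

/-!
# Local rings of the charts (module LOC)
-/

open CategoryTheory AlgebraicGeometry Limits

namespace Pool.Agent.H57.CM

open Pool.Agent.H1.CM

/-- the germ at the generic point is the image of the germ at `y` -/
theorem alg_germ (X : Scheme.{0}) [IsIntegral X] (U : X.Opens) (y : X) (hy : y ∈ U)
    (hη : genericPoint X ∈ U) (c : Γ(X, U)) :
    algebraMap (X.presheaf.stalk y) X.functionField ((X.presheaf.germ U y hy).hom c)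
      = (X.presheaf.germ U (genericPoint X) hη).hom c := by
  have key : X.presheaf.germ U y hy ≫
      X.presheaf.stalkSpecializes ((genericPoint_spec X).specializes trivial)
      = X.presheaf.germ U (genericPoint X) hη := X.presheaf.germ_stalkSpecializes _ _
  have := congrArg (fun z => z.hom c) key
  exact this

theorem germ_rs (X : Scheme.{0}) {U V : X.Opens} (h : U ≤ V) (y : X) (hy : y ∈ U) (c : Γ(X, V)) :
    (X.presheaf.germ U y hy).hom (rs X h c) = (X.presheaf.germ V y (h hy)).hom c := by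
  have key : X.presheaf.map (homOfLE h).op ≫ X.presheaf.germ U y hy = X.presheaf.germ V y (h hy) :=
    X.presheaf.germ_res _ _ _
  have := congrArg (fun z => z.hom c) key
  exact this

theorem scal_top {k : Type} [CommRing k] {X : Scheme.{0}} (s : X ⟶ Spec (CommRingCat.of k)) (c : k) :
    scal s ⊤ c = (s.appTop).hom ((Scheme.ΓSpecIso (CommRingCat.of k)).inv.hom c) := by
  have key : s.app ⊤ = s.appLE ⊤ (s ⁻¹ᵁ ⊤) le_rfl := Scheme.Hom.app_eq_appLE _
  have := congrArg (fun z => z.hom ((Scheme.ΓSpecIso (CommRingCat.of k)).inv.hom c)) key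
  exact this.symm

theorem constants_eq {k : Type} [Field k] {X : Scheme.{0}} [IsIntegral X]
    (s : X ⟶ Spec (CommRingCat.of k)) (U : X.Opens) (hη : genericPoint X ∈ U) (c : k) :
    (X.presheaf.germ U (genericPoint X) hη).hom (scal s U c) = constants s c := by
  rw [← rs_scal s (le_top : U ≤ ⊤) c, germ_rs, scal_top]
  rfl

theorem chart_map {C C' : Type} [CommRing C] [CommRing C'] (q : Quad C) (φ : C →+* C') (r : Fin 3)
    (i : Fin 4) : (q.map φ).chart r i = φ (q.chart r i) := by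
  fin_cases r <;> fin_cases i <;> simp [Quad.chart, Quad.map]

theorem loc (hP : T_PRES) : T_LOC := by
  intro k _ h2 X₀ s₀ S₀ _ h r y hy
  have hne : ({r} : Finset (Fin 3)).Nonempty := Finset.singleton_nonempty r
  have hle : S₀.V Finset.univ ≤ S₀.V {r} := S₀.le {r} hne
  have hηr : genericPoint X₀ ∈ S₀.V {r} := hle h
  obtain ⟨hP1, -⟩ := hP (scal s₀ (S₀.V Finset.univ)) S₀.q (BX X₀ S₀.V) h2 S₀.frame S₀.rel r
  let φ : Γ(X₀, S₀.V Finset.univ) →+* X₀.functionField :=
    (X₀.presheaf.germ (S₀.V Finset.univ) (genericPoint X₀) h).hom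
  have hφ : ∀ c, φ (scal s₀ (S₀.V Finset.univ) c) = constants s₀ c := constants_eq s₀ _ h
  -- sections over `V {r}`
  have hsec : ∀ b : Γ(X₀, S₀.V {r}), algebraMap (X₀.presheaf.stalk y) X₀.functionField
      ((X₀.presheaf.germ (S₀.V {r}) y hy).hom b) = φ (rs X₀ hle b) := by
    intro b
    rw [alg_germ X₀ _ y hy hηr]
    exact (germ_rs X₀ hle _ h b).symm
  have heval : ∀ p : MvPolynomial (Fin 4) k,
      φ (MvPolynomial.eval₂ (scal s₀ (S₀.V Finset.univ)) (S₀.q.chart r) p)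
        = MvPolynomial.eval₂ (constants s₀) ((S₀.qK h).chart r) p := by
    intro p
    rw [MvPolynomial.hom_eval₂]
    have h1 : φ.comp (scal s₀ (S₀.V Finset.univ)) = constants s₀ := RingHom.ext hφ
    have h3 : (fun i => φ (S₀.q.chart r i)) = (S₀.qK h).chart r := by
      funext i
      exact (chart_map S₀.q φ r i).symm
    rw [h1, h3]
  refine ⟨?_, ?_, ?_⟩
  · intro c
    refine ⟨(X₀.presheaf.germ (S₀.V {r}) y hy).hom (scal s₀ (S₀.V {r}) c), ?_⟩
    rw [alg_germ X₀ _ y hy hηr]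
    exact constants_eq s₀ _ hηr c
  · intro i
    have h1 : S₀.q.chart r i ∈ BX X₀ S₀.V {r} :=
      (hP1 _).mpr ⟨MvPolynomial.X i, by rw [MvPolynomial.eval₂_X]⟩
    obtain ⟨b, hb⟩ := (mem_BX S₀.V {r} hle _).mp h1
    refine ⟨(X₀.presheaf.germ (S₀.V {r}) y hy).hom b, ?_⟩
    rw [hsec, hb]
    exact (chart_map S₀.q φ r i).symm
  · rintro f ⟨x, rfl⟩
    have hA : IsAffineOpen (S₀.V {r}) := S₀.affine {r} hne
    letI : Algebra Γ(X₀, S₀.V {r}) (X₀.presheaf.stalk y) :=
      TopCat.Presheaf.algebra_section_stalk X₀.presheaf (⟨y, hy⟩ : S₀.V {r})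
    have hloc : IsLocalization.AtPrime (X₀.presheaf.stalk y) (hA.primeIdealOf ⟨y, hy⟩).asIdeal :=
      hA.isLocalization_stalk ⟨y, hy⟩
    obtain ⟨⟨p', d'⟩, he⟩ := IsLocalization.surj (hA.primeIdealOf ⟨y, hy⟩).asIdeal.primeCompl x
    have hu : IsUnit (algebraMap Γ(X₀, S₀.V {r}) (X₀.presheaf.stalk y) (d' : Γ(X₀, S₀.V {r}))) :=
      IsLocalization.map_units _ d'
    have ha : ∀ c : Γ(X₀, S₀.V {r}), algebraMap Γ(X₀, S₀.V {r}) (X₀.presheaf.stalk y) c
        = (X₀.presheaf.germ (S₀.V {r}) y hy).hom c := fun c => rfl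
    rw [ha] at hu
    simp only [ha] at he
    obtain ⟨p, hp⟩ := (hP1 (rs X₀ hle p')).mp ((mem_BX S₀.V {r} hle _).mpr ⟨p', rfl⟩)
    obtain ⟨d, hd⟩ := (hP1 (rs X₀ hle (d' : Γ(X₀, S₀.V {r})))).mp
      ((mem_BX S₀.V {r} hle _).mpr ⟨_, rfl⟩)
    have hp' : MvPolynomial.eval₂ (constants s₀) ((S₀.qK h).chart r) p
        = algebraMap (X₀.presheaf.stalk y) X₀.functionField
          ((X₀.presheaf.germ (S₀.V {r}) y hy).hom p') := by
      rw [hsec, hp, heval]
    have hd' : MvPolynomial.eval₂ (constants s₀) ((S₀.qK h).chart r) d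
        = algebraMap (X₀.presheaf.stalk y) X₀.functionField
          ((X₀.presheaf.germ (S₀.V {r}) y hy).hom (d' : Γ(X₀, S₀.V {r}))) := by
      rw [hsec, hd, heval]
    obtain ⟨v, hv⟩ := hu
    have hv1 : algebraMap (X₀.presheaf.stalk y) X₀.functionField
        ((X₀.presheaf.germ (S₀.V {r}) y hy).hom (d' : Γ(X₀, S₀.V {r})))
        * algebraMap (X₀.presheaf.stalk y) X₀.functionField ((v⁻¹ : (X₀.presheaf.stalk y)ˣ)) = 1 := by
      rw [← map_mul, ← hv, Units.mul_inv, map_one]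
    refine ⟨p, d, ?_, ?_, ?_⟩
    · rw [hd']
      exact left_ne_zero_of_mul_eq_one hv1
    · rw [hd']
      refine ⟨((v⁻¹ : (X₀.presheaf.stalk y)ˣ) : X₀.presheaf.stalk y), ?_⟩
      exact eq_inv_of_mul_eq_one_right hv1
    · rw [hd', hp', ← map_mul]
      exact congrArg _ he

end Pool.Agent.H57.CM
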