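import Mathlib
import Pool.Agent.H1.CM.Targets1

/-!
# Function field of the special fibre: bases (module FFD)
-/

namespace Pool.Agent.H57.CM

open Pool.Agent.H1.CM

/-- A quadratic extension inside a field. -/
def quadField {K : Type} [Field K] (L : Subfield K) (n a c : K) (h : n ^ 2 + a * n + c = 0)
    (ha : a ∈ L) (hc : c ∈ L) (hn : n ∉ L) : Subfield K where
  carrier := {f | ∃ f₀ ∈ L, ∃ f₁ ∈ L, f = f₀ + f₁ * n}
  one_mem' := ⟨1, L.one_mem, 0, L.zero_mem, by ring⟩
  zero_mem' := ⟨0, L.zero_mem, 0, L.zero_mem, by ring⟩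
  add_mem' := by
    rintro _ _ ⟨f₀, h0, f₁, h1, rfl⟩ ⟨g₀, k0, g₁, k1, rfl⟩
    exact ⟨f₀ + g₀, L.add_mem h0 k0, f₁ + g₁, L.add_mem h1 k1, by ring⟩
  neg_mem' := by
    rintro _ ⟨f₀, h0, f₁, h1, rfl⟩
    exact ⟨-f₀, L.neg_mem h0, -f₁, L.neg_mem h1, by ring⟩
  mul_mem' := by
    rintro _ _ ⟨f₀, h0, f₁, h1, rfl⟩ ⟨g₀, k0, g₁, k1, rfl⟩
    refine ⟨f₀ * g₀ - f₁ * g₁ * c, L.sub_mem (L.mul_mem h0 k0) (L.mul_mem (L.mul_mem h1 k1) hc),
      f₀ * g₁ + f₁ * g₀ - f₁ * g₁ * a, L.sub_mem (L.add_mem (L.mul_mem h0 k1) (L.mul_mem h1 k0))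
        (L.mul_mem (L.mul_mem h1 k1) ha), ?_⟩
    linear_combination f₁ * g₁ * h
  inv_mem' := by
    rintro _ ⟨f₀, h0, f₁, h1, rfl⟩
    by_cases hf : f₀ + f₁ * n = 0
    · rw [hf, inv_zero]
      exact ⟨0, L.zero_mem, 0, L.zero_mem, by ring⟩
    · have hg : f₀ - f₁ * a - f₁ * n ≠ 0 := by
        intro h2
        by_cases h3 : f₁ = 0
        · apply hf
          rw [h3] at h2 ⊢
          linear_combination h2
        · apply hn
          have h4 : n = (f₀ - f₁ * a) / f₁ := by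
            rw [eq_div_iff h3]
            linear_combination -h2
          rw [h4]
          exact L.div_mem (L.sub_mem h0 (L.mul_mem h1 ha)) h1
      have hN : (f₀ + f₁ * n) * (f₀ - f₁ * a - f₁ * n) = f₀ ^ 2 - a * f₀ * f₁ + c * f₁ ^ 2 := by
        linear_combination -f₁ ^ 2 * h
      have hN0 : f₀ ^ 2 - a * f₀ * f₁ + c * f₁ ^ 2 ≠ 0 := by
        rw [← hN]; exact mul_ne_zero hf hg
      have hNL : f₀ ^ 2 - a * f₀ * f₁ + c * f₁ ^ 2 ∈ L :=
        L.add_mem (L.sub_mem (L.pow_mem h0 2) (L.mul_mem (L.mul_mem ha h0) h1))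
          (L.mul_mem hc (L.pow_mem h1 2))
      refine ⟨(f₀ - f₁ * a) / (f₀ ^ 2 - a * f₀ * f₁ + c * f₁ ^ 2),
        L.div_mem (L.sub_mem h0 (L.mul_mem h1 ha)) hNL,
        -f₁ / (f₀ ^ 2 - a * f₀ * f₁ + c * f₁ ^ 2), L.div_mem (L.neg_mem h1) hNL, ?_⟩
      symm
      apply eq_inv_of_mul_eq_one_right
      have h5 : (f₀ + f₁ * n) * ((f₀ - f₁ * a) / (f₀ ^ 2 - a * f₀ * f₁ + c * f₁ ^ 2) +
          -f₁ / (f₀ ^ 2 - a * f₀ * f₁ + c * f₁ ^ 2) * n) =
          ((f₀ + f₁ * n) * (f₀ - f₁ * a - f₁ * n)) / (f₀ ^ 2 - a * f₀ * f₁ + c * f₁ ^ 2) := by ring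
      rw [h5, hN, div_self hN0]

section

variable {k K : Type} [Field k] [Field K] (j : k →+* K) (q : Quad K)

/-- combinations of the monomials with index in `T` -/
def P (T : Set (Fin 4)) : Set K :=
  {x | ∃ g : Idx →₀ k, (∀ s ∈ g.support, s.2.2 ∈ T) ∧ x = comb j q.mon g}

variable {j q}

theorem comb_add' (g h : Idx →₀ k) : comb j q.mon (g + h) = comb j q.mon g + comb j q.mon h := by
  unfold comb
  exact Finsupp.sum_add_index' (by simp) (by intros; simp [add_mul])

theorem comb_zero' : comb j q.mon (0 : Idx →₀ k) = 0 := by simp [comb]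

theorem comb_single' (s : Idx) (a : k) : comb j q.mon (Finsupp.single s a) = j a * q.mon s := by
  simp [comb]

theorem comb_neg' (g : Idx →₀ k) : comb j q.mon (-g) = -comb j q.mon g := by
  have h := comb_add' (j := j) (q := q) g (-g)
  rw [add_neg_cancel, comb_zero'] at h
  linear_combination -h

theorem P_add {T : Set (Fin 4)} {x y : K} (hx : x ∈ P j q T) (hy : y ∈ P j q T) : x + y ∈ P j q T := by
  classical
  obtain ⟨g, hg, rfl⟩ := hx
  obtain ⟨h, hh, rfl⟩ := hy
  refine ⟨g + h, fun s hs => ?_, (comb_add' g h).symm⟩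
  rcases Finset.mem_union.mp (Finsupp.support_add hs) with h1 | h1
  · exact hg s h1
  · exact hh s h1

theorem P_zero {T : Set (Fin 4)} : (0 : K) ∈ P j q T := ⟨0, by simp, comb_zero'.symm⟩

theorem P_neg {T : Set (Fin 4)} {x : K} (hx : x ∈ P j q T) : -x ∈ P j q T := by
  obtain ⟨g, hg, rfl⟩ := hx
  exact ⟨-g, fun s hs => hg s (by simpa using hs), (comb_neg' g).symm⟩

theorem P_mon {T : Set (Fin 4)} (s : Idx) (hs : s.2.2 ∈ T) (a : k) : j a * q.mon s ∈ P j q T := by
  classical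
  refine ⟨Finsupp.single s a, fun r hr => ?_, (comb_single' s a).symm⟩
  have := Finsupp.support_single_subset hr
  rw [Finset.mem_singleton.mp this]; exact hs

/-- induction for combinations -/
theorem P_ind {T : Set (Fin 4)} {C : K → Prop} (h0 : C 0) (ha : ∀ x y, C x → C y → C (x + y))
    (hm : ∀ (s : Idx) (a : k), s.2.2 ∈ T → C (j a * q.mon s)) {x : K} (hx : x ∈ P j q T) : C x := by
  classical
  obtain ⟨g, hg, rfl⟩ := hx
  unfold comb Finsupp.sum
  refine Finset.sum_induction _ C ha h0 fun s hs => hm s _ (hg s hs)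

theorem mon_mul {K : Type} [Field K] {q : Quad K} (i i' l l' : ℤ) (t : Fin 4) :
    q.mon (i, l, 0) * q.mon (i', l', t) = q.mon (i + i', l + l', t) := by
  simp only [Quad.mon, Quad.e]
  rw [zpow_add, zpow_add]
  push_cast
  simp
  ring

/-- product of a Laurent polynomial and a combination -/
theorem P_mul {T : Set (Fin 4)} {x y : K} (hx : x ∈ P j q {0}) (hy : y ∈ P j q T) : x * y ∈ P j q T := by
  refine P_ind (C := fun x => x * y ∈ P j q T) (by simpa using P_zero) (fun a b ha hb => ?_)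
    (fun s a hs => ?_) hx
  · show (a + b) * y ∈ P j q T
    rw [add_mul]; exact P_add ha hb
  · refine P_ind (C := fun y => j a * q.mon s * y ∈ P j q T) (by simpa using P_zero) (fun c d hc hd => ?_)
      (fun r c hr => ?_) hy
    · show j a * q.mon s * (c + d) ∈ P j q T
      rw [mul_add]; exact P_add hc hd
    · show j a * q.mon s * (j c * q.mon r) ∈ P j q T
      obtain ⟨i, l, t⟩ := s
      obtain ⟨i', l', t'⟩ := r
      have ht : t = 0 := hs
      subst ht
      have h1 : j a * q.mon (i, l, 0) * (j c * q.mon (i', l', t'))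
          = j (a * c) * q.mon (i + i', l + l', t') := by
        rw [← mon_mul, map_mul]; ring
      rw [h1]
      exact P_mon (i + i', l + l', t') hr (a * c)

theorem P_mono {T T' : Set (Fin 4)} (h : T ⊆ T') {x : K} (hx : x ∈ P j q T) : x ∈ P j q T' := by
  obtain ⟨g, hg, rfl⟩ := hx
  exact ⟨g, fun s hs => h (hg s hs), rfl⟩

/-- combinations with disjoint indices are different -/
theorem P_disj (hinj : Function.Injective (comb j q.mon)) {T T' : Set (Fin 4)} (h : Disjoint T T')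
    {x : K} (hx : x ∈ P j q T) (hx' : x ∈ P j q T') : x = 0 := by
  obtain ⟨g, hg, rfl⟩ := hx
  obtain ⟨g', hg', h'⟩ := hx'
  have h1 : g = g' := hinj h'
  have h2 : g = 0 := by
    rw [← Finsupp.support_eq_empty, Finset.eq_empty_iff_forall_notMem]
    intro s hs
    have h3 := hg s hs
    rw [h1] at hs
    exact Set.disjoint_left.mp h h3 (hg' s hs)
  rw [h2, comb_zero']

theorem P_const (a : k) : j a ∈ P j q {0} := by
  have := P_mon (j := j) (q := q) (T := {0}) ((0, 0, 0) : Idx) rfl a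
  simpa [Quad.mon, Quad.e] using this

theorem P_one : (1 : K) ∈ P j q {0} := by
  have := P_const (j := j) (q := q) 1
  simpa using this

theorem P_X : (q.X : K) ∈ P j q {0} := by
  have := P_mon (j := j) (q := q) (T := {0}) ((1, 0, 0) : Idx) rfl 1
  simpa [Quad.mon, Quad.e] using this

theorem P_Y : (q.Y : K) ∈ P j q {0} := by
  have := P_mon (j := j) (q := q) (T := {0}) ((0, 1, 0) : Idx) rfl 1
  simpa [Quad.mon, Quad.e] using this

theorem P_n : q.n ∈ P j q {1} := by
  have := P_mon (j := j) (q := q) (T := {1}) ((0, 0, 1) : Idx) rfl 1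
  simpa [Quad.mon, Quad.e] using this

theorem P_w : q.w ∈ P j q {2} := by
  have := P_mon (j := j) (q := q) (T := {2}) ((0, 0, 2) : Idx) rfl 1
  simpa [Quad.mon, Quad.e] using this

theorem mon_ne_zero (hinj : Function.Injective (comb j q.mon)) (s : Idx) : q.mon s ≠ 0 := by
  intro h
  have h1 : comb j q.mon (Finsupp.single s 1) = comb j q.mon 0 := by
    rw [comb_single', comb_zero', h, mul_zero]
  have h2 := hinj h1
  exact one_ne_zero (Finsupp.single_eq_zero.mp h2)

theorem n_ne_zero (hinj : Function.Injective (comb j q.mon)) : q.n ≠ 0 := by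
  have := mon_ne_zero hinj ((0, 0, 1) : Idx)
  simpa [Quad.mon, Quad.e] using this

theorem w_ne_zero (hinj : Function.Injective (comb j q.mon)) : q.w ≠ 0 := by
  have := mon_ne_zero hinj ((0, 0, 2) : Idx)
  simpa [Quad.mon, Quad.e] using this

/-- elements of `k(X, Y)` are quotients of Laurent polynomials -/
theorem LFs_quot {f : K} (hf : f ∈ LFs j q) : ∃ g ∈ P j q {0}, ∃ h ∈ P j q {0}, h ≠ 0 ∧ f * h = g := by
  induction hf using Subfield.closure_induction with
  | mem x hx =>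
    refine ⟨x, ?_, 1, P_one, one_ne_zero, by ring⟩
    rcases hx with ⟨a, rfl⟩ | hx
    · exact P_const a
    · rcases hx with rfl | hx
      · exact P_X
      · rw [Set.mem_singleton_iff.mp hx]; exact P_Y
  | one => exact ⟨1, P_one, 1, P_one, one_ne_zero, by ring⟩
  | add x y _ _ hx hy =>
    obtain ⟨g, hg, h, hh, h0, he⟩ := hx
    obtain ⟨g', hg', h', hh', h0', he'⟩ := hy
    refine ⟨h' * g + h * g', P_add (P_mul hh' hg) (P_mul hh hg'), h * h', P_mul hh hh',
      mul_ne_zero h0 h0', ?_⟩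
    linear_combination h' * he + h * he'
  | neg x _ hx =>
    obtain ⟨g, hg, h, hh, h0, he⟩ := hx
    exact ⟨-g, P_neg hg, h, hh, h0, by linear_combination -he⟩
  | inv x _ hx =>
    obtain ⟨g, hg, h, hh, h0, he⟩ := hx
    by_cases hx0 : x = 0
    · subst hx0
      exact ⟨0, P_zero, 1, P_one, one_ne_zero, by simp⟩
    · refine ⟨h, hh, g, hg, ?_, ?_⟩
      · rw [← he]; exact mul_ne_zero hx0 h0
      · rw [← he]; field_simp
  | mul x y _ _ hx hy =>
    obtain ⟨g, hg, h, hh, h0, he⟩ := hx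
    obtain ⟨g', hg', h', hh', h0', he'⟩ := hy
    refine ⟨g * g', P_mul hg hg', h * h', P_mul hh hh', mul_ne_zero h0 h0', ?_⟩
    rw [← he, ← he']; ring

/-- values of forms lie in every subfield which contains the coefficients and `X, Y` -/
theorem ev_mem (L : Subfield K) (hj : ∀ a, j a ∈ L) (hX : (q.X : K) ∈ L) (hY : (q.Y : K) ∈ L)
    (p : MvPolynomial (Fin 3) k) : q.ev j p ∈ L := by
  unfold Quad.ev
  induction p using MvPolynomial.induction_on with
  | C a => rw [MvPolynomial.eval₂_C]; exact hj a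
  | add p p' hp hp' => rw [MvPolynomial.eval₂_add]; exact L.add_mem hp hp'
  | mul_X p i hp =>
    rw [MvPolynomial.eval₂_mul, MvPolynomial.eval₂_X]
    refine L.mul_mem hp ?_
    fin_cases i
    · exact hX
    · exact hY
    · exact L.one_mem

end

theorem ffd : T_FFD := by
  intro k K _ _ j q h
  have hjL : ∀ a, j a ∈ LFs j q := fun a => Subfield.subset_closure (Or.inl ⟨a, rfl⟩)
  have hXL : (q.X : K) ∈ LFs j q := Subfield.subset_closure (Or.inr (Or.inl rfl))
  have hYL : (q.Y : K) ∈ LFs j q := Subfield.subset_closure (Or.inr (Or.inr rfl))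
  have hjK : ∀ a, j a ∈ KYs j q := fun a => Subfield.subset_closure (Or.inl ⟨a, rfl⟩)
  have hXK : (q.X : K) ∈ KYs j q := Subfield.subset_closure (Or.inr (Or.inl rfl))
  have hYK : (q.Y : K) ∈ KYs j q := Subfield.subset_closure (Or.inr (Or.inr (Or.inl rfl)))
  have hnK : q.n ∈ KYs j q := Subfield.subset_closure (Or.inr (Or.inr (Or.inr rfl)))
  have h2 : q.n ∉ LFs j q := by
    intro hn
    obtain ⟨g, hg, x, hx, hx0, he⟩ := LFs_quot hn
    have h3 : x * q.n ∈ P j q {1} := P_mul hx P_n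
    have h4 : x * q.n = 0 := P_disj h.inj (T := {1}) (T' := {0}) (by simp) h3
      (by rw [mul_comm, he]; exact hg)
    exact mul_ne_zero hx0 (n_ne_zero h.inj) h4
  have r1 : q.n ^ 2 + q.ev j (std (0 : k)).a * q.n + q.ev j (std (0 : k)).c = 0 := h.rel.r1
  have r2 : q.w ^ 2 + (q.ev j (std (0 : k)).b0 + q.ev j (std (0 : k)).b1 * q.n) * q.w
      + (q.ev j (std (0 : k)).e0 + q.ev j (std (0 : k)).e1 * q.n) = 0 := h.rel.r2
  have h3 : ∀ f ∈ KYs j q, ∃ f₀ ∈ LFs j q, ∃ f₁ ∈ LFs j q, f = f₀ + f₁ * q.n := by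
    have hle : KYs j q ≤ quadField (LFs j q) q.n _ _ r1 (ev_mem _ hjL hXL hYL _)
        (ev_mem _ hjL hXL hYL _) h2 := by
      refine Subfield.closure_le.mpr ?_
      rintro x (⟨a, rfl⟩ | hx)
      · exact ⟨j a, hjL a, 0, zero_mem _, by ring⟩
      · rcases hx with rfl | rfl | hx
        · exact ⟨_, hXL, 0, zero_mem _, by ring⟩
        · exact ⟨_, hYL, 0, zero_mem _, by ring⟩
        · rw [Set.mem_singleton_iff.mp hx]
          exact ⟨0, zero_mem _, 1, one_mem _, by ring⟩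
    exact fun f hf => hle hf
  have h4 : q.w ∉ KYs j q := by
    intro hw
    obtain ⟨f₀, hf0, f₁, hf1, he⟩ := h3 _ hw
    obtain ⟨g, hg, x, hx, hx0, hxe⟩ := LFs_quot hf0
    obtain ⟨g', hg', x', hx', hx0', hxe'⟩ := LFs_quot hf1
    have h5 : x * x' * q.w ∈ P j q {2} := P_mul (P_mul hx hx') P_w
    have h6 : x * x' * q.w ∈ P j q {0, 1} := by
      have h7 : x * x' * q.w = x' * g + (x * g') * q.n := by
        rw [he, ← hxe, ← hxe']; ring
      rw [h7]
      exact P_add (P_mono (by simp) (P_mul hx' hg)) (P_mono (by simp) (P_mul (P_mul hx hg') P_n))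
    have h8 := P_disj h.inj (T := {2}) (T' := {0, 1}) (by simp) h5 h6
    exact mul_ne_zero (mul_ne_zero hx0 hx0') (w_ne_zero h.inj) h8
  refine ⟨h2, h4, h3, ?_⟩
  intro f
  let Q := quadField (KYs j q) q.w _ _ r2
    ((KYs j q).add_mem (ev_mem _ hjK hXK hYK _) ((KYs j q).mul_mem (ev_mem _ hjK hXK hYK _) hnK))
    ((KYs j q).add_mem (ev_mem _ hjK hXK hYK _) ((KYs j q).mul_mem (ev_mem _ hjK hXK hYK _) hnK)) h4
  have hKQ : ∀ x ∈ KYs j q, x ∈ Q := fun x hx => ⟨x, hx, 0, zero_mem _, by ring⟩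
  have hwQ : q.w ∈ Q := ⟨0, zero_mem _, 1, one_mem _, by ring⟩
  have hmon : ∀ s : Idx, q.mon s ∈ Q := by
    intro s
    unfold Quad.mon
    refine Q.mul_mem (Q.mul_mem (hKQ _ ?_) (hKQ _ ?_)) ?_
    · rw [Units.val_zpow_eq_zpow_val]; exact (KYs j q).zpow_mem hXK _
    · rw [Units.val_zpow_eq_zpow_val]; exact (KYs j q).zpow_mem hYK _
    · obtain ⟨_, _, t⟩ := s
      fin_cases t
      · exact Q.one_mem
      · exact hKQ _ hnK
      · exact hwQ
      · exact Q.mul_mem (hKQ _ hnK) hwQ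
  have hcomb : ∀ g : Idx →₀ k, comb j q.mon g ∈ Q := by
    intro g
    unfold comb Finsupp.sum
    exact Q.sum_mem fun s _ => Q.mul_mem (hKQ _ (hjK _)) (hmon s)
  obtain ⟨g, x, hx, he⟩ := h.frac f
  have hf : f = comb j q.mon g / comb j q.mon x := by
    rw [eq_div_iff hx, he]
  have : f ∈ Q := by rw [hf]; exact Q.div_mem (hcomb g) (hcomb x)
  exact this

end Pool.Agent.H57.CM
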