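import Pool.Agent.H57.CM.Targets
import Pool.Agent.H57.LH.Ex
import Pool.Agent.H57.LH.ExRows

/-!
# Finite pseudometric spaces map to Urysohn spaces; homogeneity
-/

set_option autoImplicit false
set_option linter.unusedVariables false

namespace Pool.Agent.H57.CM

open Pool.Agent.H68.BP Pool.Agent.H58.SF Pool.Agent.H53.NR
open Pool.Agent.H53.GC (strOn sigOf)
open Pool.Agent.H57.AR (tp ty Ty)
open Pool.Agent.H57.LH (Hmg tpOn_strOn)
open Pool.Agent.H44.KR (TpOn)
open Pool.Agent.H72.CH
open Function

theorem pf_ISO : T_ISO := by
  classical
  intro D V _ _ _ d hU W _ e he A y hy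
  have key : ∀ B : Set W, B.Finite → ∃ f : W → V,
      (∀ a ∈ A ∪ B, ∀ b ∈ A ∪ B, d (f a) (f b) = e a b) ∧ ∀ a ∈ A, f a = y a := by
    intro B hB
    induction B, hB using Set.Finite.induction_on with
    | empty =>
      refine ⟨y, ?_, fun _ _ => rfl⟩
      rw [Set.union_empty]
      exact hy
    | @insert b B hbB hB ih =>
      obtain ⟨f, hf, hfA⟩ := ih
      by_cases hb : b ∈ A ∪ B
      · have h1 : A ∪ insert b B = A ∪ B := by
          ext x
          simp only [Set.mem_union, Set.mem_insert_iff]
          constructor
          · rintro (h | h | h)
            · exact Or.inl h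
            · rw [h]; exact hb
            · exact Or.inr h
          · rintro (h | h)
            · exact Or.inl h
            · exact Or.inr (Or.inr h)
        rw [h1]
        exact ⟨f, hf, hfA⟩
      · have h1 : ∃ v : V, ∀ a ∈ A ∪ B, d v (f a) = e b a := by
          by_cases hc : ∃ c ∈ A ∪ B, e b c = 0
          · obtain ⟨c, hc, h0⟩ := hc
            refine ⟨f c, fun a ha => ?_⟩
            rw [hf c hc a ha]
            refine le_antisymm ?_ ?_
            · have h2 := he.tri c b a
              rw [he.sym c b, h0, zero_add] at h2
              exact h2
            · have h2 := he.tri b c a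
              rw [h0, zero_add] at h2
              exact h2
          · push Not at hc
            have hfin : (A ∪ B).Finite := Set.toFinite _
            let F : Finset V := hfin.toFinset.image f
            let g : V → D := fun v => if h : ∃ c ∈ A ∪ B, f c = v then e b h.choose else 0
            have hg : ∀ c ∈ A ∪ B, g (f c) = e b c := by
              intro c hcm
              have hex : ∃ c' ∈ A ∪ B, f c' = f c := ⟨c, hcm, rfl⟩
              have h2 : g (f c) = e b hex.choose := dif_pos hex
              rw [h2]
              have h3 := hex.choose_spec
              have h4 : e hex.choose c = 0 := by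
                rw [← hf _ h3.1 c hcm, h3.2]
                exact (hU.met.eq _ _).2 rfl
              refine le_antisymm ?_ ?_
              · have h5 := he.tri b c hex.choose
                rw [he.sym c, h4, add_zero] at h5
                exact h5
              · have h5 := he.tri b hex.choose c
                rw [h4, add_zero] at h5
                exact h5
            have hF : ∀ v ∈ F, ∃ c ∈ A ∪ B, f c = v := by
              intro v hv
              obtain ⟨c, hc1, hc2⟩ := Finset.mem_image.1 hv
              exact ⟨c, hfin.mem_toFinset.1 hc1, hc2⟩
            obtain ⟨v, hv⟩ := hU.ext F g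
              (by
                intro x hx
                obtain ⟨c, hcm, rfl⟩ := hF x hx
                rw [hg c hcm]
                exact hc c hcm)
              (by
                intro x hx x' hx'
                obtain ⟨c, hcm, rfl⟩ := hF x hx
                obtain ⟨c', hcm', rfl⟩ := hF x' hx'
                rw [hg c hcm, hg c' hcm', hf c hcm c' hcm']
                constructor
                · rw [he.sym c c']
                  exact he.tri b c' c
                · rw [he.sym b c]
                  exact he.tri c b c')
            refine ⟨v, fun a ha => ?_⟩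
            rw [hv (f a) (Finset.mem_image.2 ⟨a, hfin.mem_toFinset.2 ha, rfl⟩), hg a ha]
        obtain ⟨v, hv⟩ := h1
        have hne : ∀ a ∈ A ∪ B, a ≠ b := fun a ha h => hb (h ▸ ha)
        have hm : ∀ a ∈ A ∪ insert b B, a = b ∨ a ∈ A ∪ B := by
          rintro a (h | h | h)
          · exact Or.inr (Or.inl h)
          · exact Or.inl h
          · exact Or.inr (Or.inr h)
        refine ⟨Function.update f b v, ?_, fun a ha => ?_⟩
        · intro a ha a' ha'
          rcases hm a ha with h2 | h2 <;> rcases hm a' ha' with h3 | h3
          · rw [h2, h3, he.self]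
            exact (hU.met.eq _ _).2 rfl
          · rw [h2, Function.update_self, Function.update_of_ne (hne a' h3)]
            exact hv a' h3
          · rw [h3, Function.update_self, Function.update_of_ne (hne a h2), hU.met.sym, he.sym]
            exact hv a h2
          · rw [Function.update_of_ne (hne a h2), Function.update_of_ne (hne a' h3)]
            exact hf a h2 a' h3
        · rw [Function.update_of_ne (hne a (Or.inl ha))]
          exact hfA a ha
  obtain ⟨f, hf, hfA⟩ := key Set.univ (Set.toFinite _)
  exact ⟨f, fun a b => hf a (Or.inr trivial) b (Or.inr trivial), hfA⟩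

theorem pf_HMM (hISO : T_ISO) (hTPM : T_TPM) : T_HMM := by
  intro D V _ _ _ _ d hU W _ A x y hxy
  have hpm : IsPM (fun a b : W => d (x a) (x b)) :=
    ⟨fun a => (hU.met.eq _ _).2 rfl, fun a b => hU.met.sym _ _, fun a b c => hU.met.tri _ _ _⟩
  have h1 := (tpOn_strOn (R := fun (s : D) (z : Fin 2 → V) => d (z 0) (z 1) = s)).1 hxy
  have h2 : ∀ a ∈ A, ∀ b ∈ A, d (y a) (y b) = d (x a) (x b) := by
    intro a ha b hb
    have h3 := h1.2 (d (x a) (x b)) ![a, b] (by
      intro i
      fin_cases i
      · exact ha
      · exact hb)
    exact h3.1 rfl
  obtain ⟨f, hf, hfA⟩ := hISO D V d hU W (fun a b => d (x a) (x b)) hpm A y h2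
  exact ⟨f, ((hTPM D V W d hU.met).1 f x).2 hf, hfA⟩

end Pool.Agent.H57.CM
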