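import Pool.Agent.H57.CM.Targets

/-!
# The truncated sum of the distances is associative
-/

set_option autoImplicit false
set_option linter.unusedVariables false

namespace Pool.Agent.H57.CM

theorem pf_RAS : T_RAS := by
  classical
  intro V S d hU
  obtain ⟨v⟩ := hU.ne
  have h0S : (0 : ℝ) ∈ S := by
    have h1 := hU.val v v
    rwa [(hU.eq v v).2 rfl] at h1
  have hpos : ∀ a : S, (0 : ℝ) ≤ a := fun a => hU.pos a a.2
  have hex : ∀ a b : S, ∃ q : S, (q : ℝ) ≤ a + b ∧ ∀ c : S, (c : ℝ) ≤ a + b → c ≤ q := by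
    intro a b
    have hne : ((Finset.univ : Finset S).filter (fun c : S => (c : ℝ) ≤ a + b)).Nonempty :=
      ⟨a, Finset.mem_filter.2 ⟨Finset.mem_univ _, le_add_of_nonneg_right (hpos b)⟩⟩
    refine ⟨Finset.max' _ hne, (Finset.mem_filter.1 (Finset.max'_mem _ hne)).2, fun c hc => ?_⟩
    exact Finset.le_max' ((Finset.univ : Finset S).filter (fun c : S => (c : ℝ) ≤ a + b)) c
      (Finset.mem_filter.2 ⟨Finset.mem_univ c, hc⟩)
  choose p hp1 hp2 using hex
  have hiff : ∀ a b c : S, (c : ℝ) ≤ a + b ↔ c ≤ p a b := fun a b c =>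
    ⟨hp2 a b c, fun h => le_trans (Subtype.coe_le_coe.2 h) (hp1 a b)⟩
  have hcomm : ∀ a b, p a b = p b a := by
    intro a b
    refine le_antisymm ((hiff b a _).1 ?_) ((hiff a b _).1 ?_)
    · rw [add_comm]; exact hp1 a b
    · rw [add_comm]; exact hp1 b a
  have hzero : ∀ o : S, (o : ℝ) = 0 → ∀ a, p o a = a := by
    intro o ho a
    refine le_antisymm ?_ ((hiff o a a).1 (by rw [ho, zero_add]))
    have h1 := hp1 o a
    rw [ho, zero_add] at h1
    exact Subtype.coe_le_coe.1 h1
  have hmono : ∀ a b c : S, b ≤ c → p a b ≤ p a c := by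
    intro a b c hbc
    refine (hiff a c _).1 (le_trans (hp1 a b) ?_)
    have h1 : (b : ℝ) ≤ c := Subtype.coe_le_coe.2 hbc
    linarith
  have hle1 : ∀ a b : S, (a : ℝ) ≤ p a b := fun a b =>
    Subtype.coe_le_coe.2 ((hiff a b a).1 (le_add_of_nonneg_right (hpos b)))
  have hle2 : ∀ a b : S, (b : ℝ) ≤ p a b := fun a b =>
    Subtype.coe_le_coe.2 ((hiff a b b).1 (le_add_of_nonneg_left (hpos a)))
  have hass : ∀ a b c : S, p (p a b) c ≤ p a (p b c) := by
    intro a b c
    by_cases ha : (a : ℝ) = 0
    · rw [hzero a ha, hzero a ha]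
    by_cases hb : (b : ℝ) = 0
    · rw [hcomm a b, hzero b hb, hzero b hb]
    by_cases hc : (c : ℝ) = 0
    · rw [hcomm (p a b) c, hzero c hc, hcomm b c, hzero c hc]
    have ha' : (0 : ℝ) < a := lt_of_le_of_ne (hpos a) (Ne.symm ha)
    have hb' : (0 : ℝ) < b := lt_of_le_of_ne (hpos b) (Ne.symm hb)
    have hc' : (0 : ℝ) < c := lt_of_le_of_ne (hpos c) (Ne.symm hc)
    obtain ⟨q, hq⟩ : ∃ q, q = p a b := ⟨_, rfl⟩
    obtain ⟨t, ht⟩ : ∃ t, t = p q c := ⟨_, rfl⟩
    have haq : (a : ℝ) ≤ q := by rw [hq]; exact hle1 a b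
    have hbq : (b : ℝ) ≤ q := by rw [hq]; exact hle2 a b
    have hqab : (q : ℝ) ≤ a + b := by rw [hq]; exact hp1 a b
    have hqt : (q : ℝ) ≤ t := by rw [ht]; exact hle1 q c
    have hct : (c : ℝ) ≤ t := by rw [ht]; exact hle2 q c
    have htqc : (t : ℝ) ≤ q + c := by rw [ht]; exact hp1 q c
    -- the points
    obtain ⟨v1, hv1⟩ := hU.ext {v} (fun _ => (t : ℝ))
      (fun x _ => ⟨t.2, by linarith [haq, ha']⟩) (by
        intro x hx y hy
        rw [Finset.mem_singleton] at hx hy
        rw [hx, hy, (hU.eq v v).2 rfl]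
        constructor <;> linarith [haq, ha'])
    have hd1 : d v1 v = t := hv1 v (Finset.mem_singleton_self v)
    have hne1 : v1 ≠ v := by
      intro h
      rw [h, (hU.eq v v).2 rfl] at hd1
      linarith [haq, ha']
    have hd1' : d v v1 = t := by rw [hU.sym]; exact hd1
    obtain ⟨z, hz⟩ := hU.ext {v, v1} (fun x => if x = v then (q : ℝ) else c)
      (by
        intro x hx
        show (if x = v then (q : ℝ) else c) ∈ S ∧ (if x = v then (q : ℝ) else c) ≠ 0
        split_ifs
        · exact ⟨q.2, by linarith⟩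
        · exact ⟨c.2, hc⟩) (by
        intro x hx y hy
        show (if x = v then (q : ℝ) else c) ≤ (if y = v then (q : ℝ) else c) + d x y ∧
          d x y ≤ (if x = v then (q : ℝ) else c) + (if y = v then (q : ℝ) else c)
        rw [Finset.mem_insert, Finset.mem_singleton] at hx hy
        rcases hx with hx | hx <;> rcases hy with hy | hy
        · rw [hx, hy, if_pos rfl, (hU.eq v v).2 rfl]; constructor <;> linarith
        · rw [hx, hy, if_pos rfl, if_neg hne1, hd1']; constructor <;> linarith
        · rw [hx, hy, if_pos rfl, if_neg hne1, hd1]; constructor <;> linarith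
        · rw [hx, hy, if_neg hne1, (hU.eq v1 v1).2 rfl]; constructor <;> linarith)
    have hzv : d z v = q := by
      have h1 := hz v (Finset.mem_insert_self _ _)
      simpa using h1
    have hzv1 : d z v1 = c := by
      have h1 := hz v1 (Finset.mem_insert_of_mem (Finset.mem_singleton_self _))
      have h2 : (if v1 = v then (q : ℝ) else c) = c := if_neg hne1
      exact h1.trans h2
    have hnez : z ≠ v := by
      intro h
      rw [h, (hU.eq v v).2 rfl] at hzv
      linarith
    have hvz : d v z = q := by rw [hU.sym]; exact hzv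
    obtain ⟨u, hu⟩ := hU.ext {v, z} (fun x => if x = v then (a : ℝ) else b)
      (by
        intro x hx
        show (if x = v then (a : ℝ) else b) ∈ S ∧ (if x = v then (a : ℝ) else b) ≠ 0
        split_ifs
        · exact ⟨a.2, ha⟩
        · exact ⟨b.2, hb⟩) (by
        intro x hx y hy
        show (if x = v then (a : ℝ) else b) ≤ (if y = v then (a : ℝ) else b) + d x y ∧
          d x y ≤ (if x = v then (a : ℝ) else b) + (if y = v then (a : ℝ) else b)
        rw [Finset.mem_insert, Finset.mem_singleton] at hx hy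
        rcases hx with hx | hx <;> rcases hy with hy | hy
        · rw [hx, hy, if_pos rfl, (hU.eq v v).2 rfl]; constructor <;> linarith
        · rw [hx, hy, if_pos rfl, if_neg hnez, hvz]; constructor <;> linarith
        · rw [hx, hy, if_pos rfl, if_neg hnez, hzv]; constructor <;> linarith
        · rw [hx, hy, if_neg hnez, (hU.eq z z).2 rfl]; constructor <;> linarith)
    have huv : d u v = a := by
      have h1 := hu v (Finset.mem_insert_self _ _)
      simpa using h1
    have huz : d u z = b := by
      have h1 := hu z (Finset.mem_insert_of_mem (Finset.mem_singleton_self _))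
      have h2 : (if z = v then (a : ℝ) else b) = b := if_neg hnez
      exact h1.trans h2
    have he1 : (⟨d u v1, hU.val u v1⟩ : S) ≤ p b c := by
      refine (hiff b c _).1 ?_
      have h1 := hU.tri u z v1
      rw [huz, hzv1] at h1
      exact h1
    have he2 : t ≤ p a (⟨d u v1, hU.val u v1⟩ : S) := by
      refine (hiff a _ _).1 ?_
      have h1 := hU.tri v1 u v
      rw [hd1, huv, hU.sym v1 u] at h1
      show (t : ℝ) ≤ a + d u v1
      linarith
    have he3 : p q c = t := ht.symm
    rw [← hq, he3]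
    exact le_trans he2 (hmono a _ _ he1)
  refine ⟨p, hiff, hcomm, fun a b c => le_antisymm (hass a b c) ?_, hzero⟩
  calc p a (p b c) = p (p c b) a := by rw [hcomm a, hcomm b c]
    _ ≤ p c (p b a) := hass c b a
    _ = p (p a b) c := by rw [hcomm c, hcomm b a]

end Pool.Agent.H57.CM
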