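import Pool.Agent.H57.CM.Asm
import Pool.Agent.H57.CM.ISO
import Pool.Agent.H57.CM.RAS
import Pool.Agent.H4.CM.EFR
import Pool.Agent.H75.CM.EUR
import Pool.Agent.H1.CM.H0F
import Pool.Agent.H66.CM.H0L
import Pool.Agent.H34.CM.H0M
import Pool.Agent.H84.CM.HVR
import Pool.Agent.H42.CM.IDM
import Pool.Agent.H46.CM.LHM
import Pool.Agent.H36.CM.LTP
import Pool.Agent.H42.CM.PLV
import Pool.Agent.H14.CM.RZ1
import Pool.Agent.H14.CM.RZ2
import Pool.Agent.H4.CM.RZF
import Pool.Agent.H73.CM.RZL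
import Pool.Agent.H75.CM.RZM
import Pool.Agent.H53.CM.SHO
import Pool.Agent.H66.CM.SPM
import Pool.Agent.H27.CM.TPC
import Pool.Agent.H67.CM.TPM

/-!
# Examples of structures with a chain of equivalence relations and relative local completions
-/

set_option autoImplicit false
set_option linter.unusedVariables false

namespace Pool.Agent.H57.CM

open Pool.Agent.H68.BP Pool.Agent.H58.SF Pool.Agent.H53.NR
open Pool.Agent.H72.CH

/-- Urysohn spaces over finite ordered commutative monoids -/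
theorem ex_ury : T_HVM :=
  hv_ury (Pool.Agent.H34.CM.pf_H0M Pool.Agent.H42.CM.pf_IDM Pool.Agent.H42.CM.PLV.pf_PLV
      Pool.Agent.H67.CM.pf_TPM (pf_HMM pf_ISO Pool.Agent.H67.CM.pf_TPM))
    (Pool.Agent.H75.CM.pf_RZM Pool.Agent.H42.CM.pf_IDM Pool.Agent.H42.CM.PLV.pf_PLV
      Pool.Agent.H53.CM.pf_SHO Pool.Agent.H66.CM.pf_SPM pf_ISO Pool.Agent.H67.CM.pf_TPM)
    Pool.Agent.H14.CM.pf_RZ2

/-- Urysohn spaces with finitely many real distances -/
theorem ex_real : T_HVR := Pool.Agent.H84.CM.pf_HVR pf_RAS ex_ury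

/-- free classes with a chain of equivalence relations -/
theorem ex_free : T_HVF :=
  hv_free (Pool.Agent.H1.CM.pf_H0F Pool.Agent.H27.CM.pf_TPC)
    (Pool.Agent.H4.CM.pf_RZF Pool.Agent.H27.CM.pf_TPC) Pool.Agent.H14.CM.pf_RZ2

/-- lexicographic products -/
theorem ex_lex : T_LHV :=
  hv_lex (Pool.Agent.H66.CM.pf_H0L (Pool.Agent.H46.CM.pf_LHM Pool.Agent.H36.CM.pf_LTP))
    (Pool.Agent.H73.CM.pf_RZL Pool.Agent.H36.CM.pf_LTP) Pool.Agent.H14.CM.pf_RZ1
    Pool.Agent.H14.CM.pf_RZ2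

/-- Urysohn spaces exist. -/
theorem ury_exist : T_EUR := Pool.Agent.H75.CM.pf_EUR

/-- Limits of free classes with a chain of equivalence relations exist. -/
theorem free_exist : T_EFR := Pool.Agent.H4.CM.pf_EFR

end Pool.Agent.H57.CM
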