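import Pool.Agent.H57.CM.Targets

/-!
# Examples of structures with a chain of equivalence relations and relative local completions
-/

set_option autoImplicit false
set_option linter.unusedVariables false

namespace Pool.Agent.H57.CM

open Pool.Agent.H68.BP Pool.Agent.H58.SF Pool.Agent.H53.NR
open Pool.Agent.H53.GC (strOn sigOf)
open Pool.Agent.H57.AR (tp ty Ty)
open Pool.Agent.H57.LH (Hmg)
open Pool.Agent.H72.CH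
open Function

theorem hv_ury (h0 : T_H0M) (hz : T_RZM) (h2 : T_RZ2) : T_HVM := by
  intro D V _ _ _ _ _ d hU
  exact h2 _ _ _ _ _ (h0 D V d hU) (hz D V d hU)

theorem hv_free (h0 : T_H0F) (hz : T_RZF) (h2 : T_RZ2) : T_HVF := by
  intro τ V m F 𝔹 lv h
  exact h2 _ _ _ _ _ (h0 τ V m F 𝔹 lv h) (hz τ V m F 𝔹 lv h)

theorem hv_hv0 {V : Type} {ρ : Sig} {𝔹 : Str ρ V} {m : ℕ} {lv : V → V → ℕ} (h : HV 𝔹 m lv) :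
    HV0 𝔹 m lv :=
  ⟨h.ne, h.cnt, h.ar, h.lev, h.inv, h.one, h.hmg⟩

theorem rlz_mono {V : Type} {ρ : Sig} {𝔹 : Str ρ V} {m : ℕ} {lv : V → V → ℕ} {r M M' : ℕ}
    (h : RLZ 𝔹 m lv r M) (hM : M ≤ M') : RLZ 𝔹 m lv r M' :=
  fun X Λ _ lam z y h1 h2 h3 => h X Λ lam z y h1 h2 fun U L hU hL =>
    h3 U L (hU.trans hM) (hL.trans hM)

theorem hv_lex (h0 : T_H0L) (hz : T_RZL) (h1 : T_RZ1) (h2 : T_RZ2) : T_LHV := by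
  intro τ₁ τ₂ V₁ V₂ 𝔹₁ 𝔹₂ m₁ m₂ lv₁ lv₂ hV₁ hV₂
  refine h2 _ _ _ _ _ (h0 _ _ _ _ _ _ _ _ _ _ (hv_hv0 hV₁) (hv_hv0 hV₂)) fun r => ?_
  obtain ⟨M₁, hM₁⟩ := h1 _ _ _ _ _ hV₁ r
  obtain ⟨M₂, hM₂⟩ := h1 _ _ _ _ _ hV₂ r
  exact ⟨max M₁ M₂, hz _ _ _ _ _ _ _ _ _ _ (hv_hv0 hV₁) (hv_hv0 hV₂) r M₁ M₂ hM₁ hM₂⟩

end Pool.Agent.H57.CM
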