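import Pool.Agent.H57.CM.Scope
import Pool.Agent.H57.LH.Small

/-!
# Base structures: chains of equivalence relations and relative local completions

`Base` is the class of the structures of the theorem. Its first constructor is the general case, the
others are named families.
-/

set_option autoImplicit false
set_option linter.unusedVariables false

namespace Pool.Agent.H57.CM

open Pool.Agent.H68.BP Pool.Agent.H58.SF Pool.Agent.H53.NR
open Pool.Agent.H53.GC (strOn sigOf)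
open Pool.Agent.H57.AR (tp ty Ty)
open Pool.Agent.H57.LH (Hmg)
open Pool.Agent.H72.CH
open Function

/-- The automorphism group is transitive. -/
def Transitive {τ : Sig} {B : Type} (𝔹 : Str τ B) : Prop :=
  ∀ x y : B, ∃ g : B ≃ B, IsAut 𝔹 g ∧ g x = y

/-- Relative local completions for a chain of invariant equivalence relations: `(x, y)` is in the
`j`-th relation iff `j ≤ lv x y`, the first relation is full, the last one is the equality. -/
def ChainCompletions {τ : Sig} {B : Type} (𝔹 : Str τ B) : Prop :=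
  ∃ (m : ℕ) (lv : B → B → ℕ), Lev m lv ∧
    (∀ g : B ≃ B, IsAut 𝔹 g → ∀ x y, lv (g x) (g y) = lv x y) ∧ RelLC 𝔹 m lv

/-- The base structures. -/
inductive Base : {τ : Sig} → {B : Type} → Str τ B → Prop
  | chain {τ : Sig} {B : Type} (𝔹 : Str τ B) : Countable B → Nonempty B → Homogeneous 𝔹 →
      Transitive 𝔹 → ChainCompletions 𝔹 → Base 𝔹
  | urysohn {D B : Type} [LinearOrder D] [AddCommMonoid D] [DM D] [Finite D] (d : B → B → D) :
      Countable B → Ury d → Base (mst d)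
  | real {B : Type} (S : Finset ℝ) (d : B → B → ℝ) : Countable B → UryR S d → Base (rst S d)
  | free {τ : Sig} {B : Type} (m : ℕ) (F : Set (Cnf τ)) (𝔹 : Str τ B) (lv : B → B → ℕ) :
      FrC m F 𝔹 lv → Base (cst m 𝔹 lv)
  | lexicographic {τ₁ τ₂ : Sig} {B₁ B₂ : Type} (𝔹₁ : Str τ₁ B₁) (𝔹₂ : Str τ₂ B₂) :
      (∀ l, 1 ≤ τ₁.ar l) → (∀ l, 1 ≤ τ₂.ar l) → Base 𝔹₁ → Base 𝔹₂ → Base (lex 𝔹₁ 𝔹₂)

/-- the hypotheses of the general case -/
def IsChain {τ : Sig} {B : Type} (𝔹 : Str τ B) : Prop :=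
  Countable B ∧ Nonempty B ∧ Homogeneous 𝔹 ∧ Transitive 𝔹 ∧ ChainCompletions 𝔹

theorem chain_of_hv {τ : Sig} {B : Type} {𝔹 : Str τ B} {m : ℕ} {lv : B → B → ℕ}
    (h : HV 𝔹 m lv) : IsChain 𝔹 :=
  ⟨h.cnt, h.ne, hv_hom h, hv_trans h, m, lv, h.lev, hv_inv h, h.rlc⟩

theorem hv_of_chain {τ : Sig} {B : Type} {𝔹 : Str τ B} (har : ∀ l, 1 ≤ τ.ar l)
    (h : IsChain 𝔹) : ∃ (m : ℕ) (lv : B → B → ℕ), HV 𝔹 m lv := by
  obtain ⟨h1, h2, h3, h4, m, lv, h5, h6, h7⟩ := h
  have hH : Hmg 𝔹 := Pool.Agent.H57.LH.pf_HMG B τ 𝔹 h3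
  refine ⟨m, lv, h2, h1, har, h5, fun x y hxy => ?_, fun x y => ?_, hH, h7⟩
  · classical
    -- an automorphism from `x` to `y`
    have hxy1 : ∀ a b, x a = x b ↔ y a = y b := fun a b =>
      iff_of_eq (congrFun (congrFun (congrArg Prod.fst hxy) a) b)
    have hxy2 : ∀ (l : Fin τ.m) (z : Fin (τ.ar l) → Fin 2), 𝔹 l (fun i => x (z i)) ↔
        𝔹 l (fun i => y (z i)) := fun l z =>
      iff_of_eq (congrFun (congrFun (congrArg Prod.snd hxy) l) z)
    let F : Finset B := Finset.univ.image x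
    have hF : ∀ v : F, ∃ a, x a = v := fun v => by
      obtain ⟨a, -, ha⟩ := Finset.mem_image.1 v.2
      exact ⟨a, ha⟩
    choose c hc using hF
    have hemb : IsEmb (fun l (z : Fin (τ.ar l) → F) => 𝔹 l (fun i => (z i : B))) 𝔹
        (fun v => y (c v)) := by
      refine ⟨fun v w hvw => ?_, fun l z => ?_⟩
      · refine Subtype.ext ?_
        rw [← hc v, ← hc w]
        exact (hxy1 _ _).2 hvw
      · have e1 : (fun i => (z i : B)) = fun i => x (c (z i)) := funext fun i => (hc (z i)).symm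
        have e2 : 𝔹 l (fun i => (z i : B)) ↔ 𝔹 l (fun i => y (c (z i))) := by
          rw [e1]
          exact hxy2 l fun i => c (z i)
        exact e2
    obtain ⟨g, hg1, hg2⟩ := h3 F _ hemb
    have hg3 : ∀ a, g (x a) = y a := by
      intro a
      have h8 := hg2 ⟨x a, Finset.mem_image.2 ⟨a, Finset.mem_univ a, rfl⟩⟩
      rw [h8]
      exact (hxy1 _ _).1 (hc _)
    rw [← hg3, ← hg3]
    exact (h6 g hg1 _ _).symm
  · obtain ⟨g, hg1, hg2⟩ := h4 x y
    funext l
    have h8 := hg1 l (fun _ => x)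
    rw [hg2] at h8
    exact propext h8

/-- All base structures are as in the general case. -/
theorem base_chain {τ : Sig} {B : Type} {𝔹 : Str τ B} (h : Base 𝔹) : IsChain 𝔹 := by
  induction h with
  | chain 𝔹 h1 h2 h3 h4 h5 => exact ⟨h1, h2, h3, h4, h5⟩
  | urysohn d h1 h2 => exact chain_of_hv (ex_ury _ _ d h2)
  | real S d h1 h2 =>
    obtain ⟨m, lv, h3⟩ := ex_real _ S d h2
    exact chain_of_hv h3
  | free m F 𝔹 lv h1 => exact chain_of_hv (ex_free _ _ m F 𝔹 lv h1)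
  | lexicographic 𝔹₁ 𝔹₂ h1 h2 h3 h4 ih1 ih2 =>
    obtain ⟨m₁, lv₁, h5⟩ := hv_of_chain h1 ih1
    obtain ⟨m₂, lv₂, h6⟩ := hv_of_chain h2 ih2
    exact chain_of_hv (ex_lex _ _ _ _ _ _ _ _ _ _ h5 h6)

end Pool.Agent.H57.CM
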