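import Pool.Agent.H57.CM.Targets

/-!
# The automorphism groups of the examples
-/

set_option autoImplicit false
set_option linter.unusedVariables false

namespace Pool.Agent.H57.CM

open Pool.Agent.H68.BP Pool.Agent.H58.SF Pool.Agent.H53.NR
open Pool.Agent.H53.GC (strOn sigOf)
open Pool.Agent.H72.CH
open Function

theorem strOn_isAut {S : Type} {Ar : S → Type} [Finite S] [∀ s, Finite (Ar s)] {Y : Type}
    {R : (s : S) → (Ar s → Y) → Prop} {g : Y ≃ Y} :
    IsAut (strOn R) g ↔ ∀ (s : S) (z : Ar s → Y), R s z ↔ R s (fun p => g (z p)) := by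
  constructor
  · intro hg s z
    obtain ⟨l, rfl⟩ : ∃ l, (Finite.equivFin S).symm l = s := ⟨Finite.equivFin S s, by simp⟩
    have h := hg l (fun q => z ((Finite.equivFin (Ar ((Finite.equivFin S).symm l))).symm q))
    have h1 : ∀ (x : Fin ((sigOf S Ar).ar l) → Y),
        strOn R l x ↔ R ((Finite.equivFin S).symm l)
          (fun p => x (Finite.equivFin (Ar ((Finite.equivFin S).symm l)) p)) := fun x => Iff.rfl
    rw [h1, h1] at h
    simpa only [Equiv.symm_apply_apply] using h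
  · intro h l x
    exact h _ fun p => x (Finite.equivFin (Ar ((Finite.equivFin S).symm l)) p)

/-- the automorphisms of the structure of a metric space are the isometries -/
theorem rst_aut {B : Type} {S : Finset ℝ} {d : B → B → ℝ} (hU : UryR S d) (g : B ≃ B) :
    IsAut (rst S d) g ↔ ∀ x y, d (g x) (g y) = d x y := by
  have h0 : IsAut (rst S d) g ↔ ∀ (s : S) (z : Fin 2 → B), d (z 0) (z 1) = s ↔
      d (g (z 0)) (g (z 1)) = s :=
    strOn_isAut (R := fun (s : S) (z : Fin 2 → B) => d (z 0) (z 1) = s)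
  rw [h0]
  constructor
  · intro h x y
    exact (h ⟨d x y, hU.val x y⟩ ![x, y]).1 rfl
  · intro h s z
    rw [h]

/-- the automorphisms of lexicographic products -/
theorem lex_aut {τ₁ τ₂ : Sig} {B₁ B₂ : Type} [hn₁ : Nonempty B₁] [hn₂ : Nonempty B₂]
    (𝔹₁ : Str τ₁ B₁) (𝔹₂ : Str τ₂ B₂) (g : B₁ × B₂ ≃ B₁ × B₂) :
    IsAut (lex 𝔹₁ 𝔹₂) g ↔ ∃ g₁ : B₁ ≃ B₁, IsAut 𝔹₁ g₁ ∧ ∃ h : B₁ → (B₂ ≃ B₂),
      (∀ x, IsAut 𝔹₂ (h x)) ∧ ∀ p, g p = (g₁ p.1, h p.1 p.2) := by
  have h0 : IsAut (lex 𝔹₁ 𝔹₂) g ↔ ∀ (s : Fin τ₁.m ⊕ Fin τ₂.m ⊕ Unit)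
      (z : LAr τ₁ τ₂ s → B₁ × B₂), lexR 𝔹₁ 𝔹₂ s z ↔ lexR 𝔹₁ 𝔹₂ s (fun p => g (z p)) :=
    strOn_isAut (Ar := LAr τ₁ τ₂) (R := lexR 𝔹₁ 𝔹₂)
  rw [h0]
  obtain ⟨b₀⟩ := hn₂
  constructor
  · intro h
    have hE : ∀ p q : B₁ × B₂, p.1 = q.1 ↔ (g p).1 = (g q).1 := fun p q =>
      h (Sum.inr (Sum.inr ())) ![p, q]
    have hE' : ∀ p q : B₁ × B₂, p.1 = q.1 ↔ (g.symm p).1 = (g.symm q).1 := by
      intro p q
      have h1 := hE (g.symm p) (g.symm q)
      rw [g.apply_symm_apply, g.apply_symm_apply] at h1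
      exact h1.symm
    let g₁ : B₁ ≃ B₁ :=
      { toFun := fun x => (g (x, b₀)).1
        invFun := fun x => (g.symm (x, b₀)).1
        left_inv := fun x => by
          show (g.symm ((g (x, b₀)).1, b₀)).1 = x
          have h1 := (hE' ((g (x, b₀)).1, b₀) (g (x, b₀))).1 rfl
          rw [g.symm_apply_apply] at h1
          exact h1
        right_inv := fun x => by
          show (g ((g.symm (x, b₀)).1, b₀)).1 = x
          have h1 := (hE ((g.symm (x, b₀)).1, b₀) (g.symm (x, b₀))).1 rfl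
          rw [g.apply_symm_apply] at h1
          exact h1 }
    have hg₁ : ∀ p, (g p).1 = g₁ p.1 := fun p => (hE p (p.1, b₀)).1 rfl
    have hg₁' : ∀ p, (g.symm p).1 = g₁.symm p.1 := by
      intro p
      have h1 := hg₁ (g.symm p)
      rw [g.apply_symm_apply] at h1
      rw [h1, g₁.symm_apply_apply]
    let H : B₁ → (B₂ ≃ B₂) := fun x =>
      { toFun := fun y => (g (x, y)).2
        invFun := fun y => (g.symm (g₁ x, y)).2
        left_inv := fun y => by
          show (g.symm (g₁ x, (g (x, y)).2)).2 = y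
          have h1 : (g₁ x, (g (x, y)).2) = g (x, y) := Prod.ext (hg₁ (x, y)).symm rfl
          rw [h1, g.symm_apply_apply]
        right_inv := fun y => by
          show (g (x, (g.symm (g₁ x, y)).2)).2 = y
          have h1 : (x, (g.symm (g₁ x, y)).2) = g.symm (g₁ x, y) := by
            refine Prod.ext ?_ rfl
            rw [hg₁' (g₁ x, y)]
            exact (g₁.symm_apply_apply x).symm
          rw [h1, g.apply_symm_apply] }
    refine ⟨g₁, ?_, H, ?_, fun p => Prod.ext (hg₁ p) rfl⟩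
    · intro l x
      have h1 := h (Sum.inl l) fun i => (x i, b₀)
      have h2 : (fun i => (g (x i, b₀)).1) = fun i => g₁ (x i) := rfl
      exact h1
    · intro x l y
      have h1 := h (Sum.inr (Sum.inl l)) fun i => (x, y i)
      have h2 : (∀ i j : Fin (τ₂.ar l), (g (x, y i)).1 = (g (x, y j)).1) := fun i j =>
        (hE (x, y i) (x, y j)).1 rfl
      constructor
      · intro h3
        exact (h1.1 ⟨fun _ _ => rfl, h3⟩).2
      · intro h3
        exact (h1.2 ⟨h2, h3⟩).2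
  · rintro ⟨g₁, hg₁, H, hH, hg⟩ s z
    rcases s with l | l | u
    · show 𝔹₁ l (fun i => (z i).1) ↔ 𝔹₁ l (fun i => (g (z i)).1)
      have h1 : (fun i => (g (z i)).1) = fun i => g₁ (z i).1 := funext fun i => by rw [hg]
      rw [h1]
      exact hg₁ l _
    · show ((∀ i j, (z i).1 = (z j).1) ∧ 𝔹₂ l (fun i => (z i).2)) ↔
        ((∀ i j, (g (z i)).1 = (g (z j)).1) ∧ 𝔹₂ l (fun i => (g (z i)).2))
      have h1 : (∀ i j, (z i).1 = (z j).1) ↔ ∀ i j, (g (z i)).1 = (g (z j)).1 := by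
        refine forall_congr' fun i => forall_congr' fun j => ?_
        rw [hg, hg]
        exact g₁.injective.eq_iff.symm
      rw [← h1]
      refine and_congr_right fun h2 => ?_
      rcases isEmpty_or_nonempty (Fin (τ₂.ar l)) with hE | ⟨⟨i₀⟩⟩
      · have h3 : (fun i => (z i).2) = fun i => (g (z i)).2 := funext fun i => hE.elim i
        have h4 : 𝔹₂ l (fun i => (z i).2) ↔ 𝔹₂ l (fun i => (g (z i)).2) := by rw [h3]
        exact h4
      · have h3 : (fun i => (g (z i)).2) = fun i => H (z i₀).1 (z i).2 := funext fun i => by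
          rw [hg]
          show H (z i).1 (z i).2 = _
          rw [h2 i i₀]
        rw [h3]
        exact hH (z i₀).1 l _
    · show (z 0).1 = (z 1).1 ↔ (g (z 0)).1 = (g (z 1)).1
      rw [hg, hg]
      exact g₁.injective.eq_iff.symm

end Pool.Agent.H57.CM
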