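import Pool.Agent.H57.CM.All
import Pool.Agent.H96.LH.HHG

/-!
# The examples in terms of automorphisms
-/

set_option autoImplicit false
set_option linter.unusedVariables false

namespace Pool.Agent.H57.CM

open Pool.Agent.H68.BP Pool.Agent.H58.SF Pool.Agent.H53.NR
open Pool.Agent.H53.GC (strOn sigOf)
open Pool.Agent.H57.AR (tp ty Ty)
open Pool.Agent.H72.CH
open Function

section scope

variable {V : Type} {ρ : Sig} {𝔹 : Str ρ V} {m : ℕ} {lv : V → V → ℕ}

theorem hv_hom (h : HV 𝔹 m lv) : Homogeneous 𝔹 := by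
  have := h.cnt
  exact Pool.Agent.H96.LH.pf_HHG V ρ 𝔹 inferInstance h.hmg

theorem hv_trans (h : HV 𝔹 m lv) (x y : V) : ∃ g : V ≃ V, IsAut 𝔹 g ∧ g x = y := by
  classical
  have h1 : IsEmb (fun l (z : Fin (ρ.ar l) → ({x} : Finset V)) => 𝔹 l (fun i => (z i : V))) 𝔹
      (fun _ => y) := by
    refine ⟨fun a b _ => ?_, fun l z => ?_⟩
    · have ha := Finset.mem_singleton.1 a.2
      have hb := Finset.mem_singleton.1 b.2
      exact Subtype.ext (ha.trans hb.symm)
    · have e1 : (fun i => (z i : V)) = fun _ => x :=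
        funext fun i => Finset.mem_singleton.1 (z i).2
      have e2 : 𝔹 l (fun i => (z i : V)) ↔ 𝔹 l (fun _ => y) := by
        rw [e1]
        exact iff_of_eq (congrFun (h.one x y) l)
      exact e2
  obtain ⟨g, hg1, hg2⟩ := hv_hom h {x} (fun _ => y) h1
  exact ⟨g, hg1, hg2 ⟨x, Finset.mem_singleton_self x⟩⟩

theorem hv_inv (h : HV 𝔹 m lv) (g : V ≃ V) (hg : IsAut 𝔹 g) (x y : V) :
    lv (g x) (g y) = lv x y := by
  have h1 : tp 𝔹 ![g x, g y] = tp 𝔹 ![x, y] := by
    have e : (![g x, g y] : Fin 2 → V) = fun i => g (![x, y] i) := by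
      funext i
      fin_cases i <;> rfl
    rw [e]
    refine Prod.ext ?_ ?_
    · funext a b
      exact propext g.injective.eq_iff
    · funext l z
      exact propext (hg l (fun i => ![x, y] (z i))).symm
  exact h.inv _ _ h1

end scope

end Pool.Agent.H57.CM
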