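import Pool.Agent.H72.CH.Defs
import Pool.Agent.H57.CN.Basics

/-!
# Metric spaces with distances in a finite ordered monoid: definitions and targets
-/

set_option autoImplicit false
set_option linter.unusedVariables false

namespace Pool.Agent.H57.CM

open Pool.Agent.H68.BP Pool.Agent.H58.SF Pool.Agent.H53.NR
open Pool.Agent.H53.GC (strOn sigOf)
open Pool.Agent.H57.AR (tp ty Ty)
open Pool.Agent.H57.LH (Hmg)
open Pool.Agent.H72.CH
open Function

/-! ### Relative local completions for labels -/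

section rlz

variable {V : Type} {ρ : Sig}

/-- The hypotheses on the structure with levels, without the local completions. -/
structure HV0 (𝔹 : Str ρ V) (m : ℕ) (lv : V → V → ℕ) : Prop where
  ne : Nonempty V
  cnt : Countable V
  ar : ∀ l, 1 ≤ ρ.ar l
  lev : Lev m lv
  inv : ∀ x y : Fin 2 → V, tp 𝔹 x = tp 𝔹 y → lv (x 0) (x 1) = lv (y 0) (y 1)
  one : ∀ x y : V, ty 𝔹 x = ty 𝔹 y
  hmg : Hmg 𝔹

/-- Relative local completions, with the bounds `r` and `M`: the tuple `z a` has to be mapped to a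
tuple of the type of `y a`, for each label `a`, and the levels have to be exact. -/
def RLZ (𝔹 : Str ρ V) (m : ℕ) (lv : V → V → ℕ) (r M : ℕ) : Prop :=
  ∀ (X Λ : Type) [Finite X] (lam : X → X → ℕ) (z : Λ → Fin r → X) (y : Λ → Fin r → V),
    PLev m lam → (∀ a i j, lv (y a i) (y a j) = lam (z a i) (z a j)) →
    (∀ (U : Finset X) (L : Finset Λ), U.card ≤ M → L.card ≤ M → ∃ f : X → V,
      (∀ x ∈ U, ∀ x' ∈ U, lam x x' ≤ lv (f x) (f x')) ∧
      ∀ a ∈ L, tp 𝔹 (fun i => f (z a i)) = tp 𝔹 (y a)) →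
    ∃ f : X → V, (∀ x x', lv (f x) (f x') = lam x x') ∧
      ∀ a, tp 𝔹 (fun i => f (z a i)) = tp 𝔹 (y a)

end rlz

/-- relative local completions give those for labels -/
def T_RZ1 : Prop :=
  ∀ (V : Type) (ρ : Sig) (𝔹 : Str ρ V) (m : ℕ) (lv : V → V → ℕ), HV 𝔹 m lv →
    ∀ r : ℕ, ∃ M : ℕ, RLZ 𝔹 m lv r M

/-- local completions for labels give relative local completions -/
def T_RZ2 : Prop :=
  ∀ (V : Type) (ρ : Sig) (𝔹 : Str ρ V) (m : ℕ) (lv : V → V → ℕ), HV0 𝔹 m lv →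
    (∀ r : ℕ, ∃ M : ℕ, RLZ 𝔹 m lv r M) → HV 𝔹 m lv

section defs

variable {V X : Type} {D : Type} [LinearOrder D] [AddCommMonoid D]

/-- the hypotheses on the monoid of distances -/
class DM (D : Type) [LinearOrder D] [AddCommMonoid D] : Prop where
  fin : Finite D
  zero_le : ∀ a : D, 0 ≤ a
  mono : ∀ a b c : D, a ≤ b → a + c ≤ b + c

/-- `d` is a metric with values in `D`. -/
structure IsM (d : V → V → D) : Prop where
  eq : ∀ x y, d x y = 0 ↔ x = y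
  sym : ∀ x y, d x y = d y x
  tri : ∀ x y z, d x z ≤ d x y + d y z

/-- `d` is a pseudometric with values in `D`. -/
structure IsPM (d : V → V → D) : Prop where
  self : ∀ x, d x x = 0
  sym : ∀ x y, d x y = d y x
  tri : ∀ x y z, d x z ≤ d x y + d y z

/-- Urysohn spaces: metric spaces with the extension property for one-point extensions -/
structure Ury (d : V → V → D) : Prop where
  met : IsM d
  ne : Nonempty V
  ext : ∀ (F : Finset V) (f : V → D), (∀ x ∈ F, f x ≠ 0) →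
    (∀ x ∈ F, ∀ y ∈ F, f x ≤ f y + d x y ∧ d x y ≤ f x + f y) → ∃ z, ∀ x ∈ F, d z x = f x

/-- the structure of the metric space: a binary relation for each distance -/
noncomputable def mst [Finite D] (d : V → V → D) : Str (sigOf D (fun _ => Fin 2)) V :=
  strOn fun (s : D) z => d (z 0) (z 1) = s

/-- the number of the idempotents of `D` which are at least `a` -/
noncomputable def ni (a : D) : ℕ := Nat.card {e : D // e + e = e ∧ a ≤ e}

/-- the number of the levels -/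
noncomputable def nl (D : Type) [LinearOrder D] [AddCommMonoid D] : ℕ := ni (0 : D) - 1

/-- the levels -/
noncomputable def ml (d : V → V → D) (x y : V) : ℕ := ni (d x y) - 1

/-- the length of the path `x, l` -/
def len (w : X → X → D) : X → List X → D
  | _, [] => 0
  | x, y :: l => w x y + len w y l

end defs

/-- the idempotents: `s j` is the idempotent with `j` larger idempotents -/
def T_IDM : Prop :=
  ∀ (D : Type) [LinearOrder D] [AddCommMonoid D] [DM D],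
    (∀ a : D, 1 ≤ ni a) ∧ (∀ a b : D, a ≤ b → ni b ≤ ni a) ∧
    ∃ s : ℕ → D, (∀ j, s j + s j = s j) ∧ (∀ j ≤ nl D, ∀ a : D, a ≤ s j ↔ j ≤ ni a - 1) ∧
      (∀ j ≤ nl D, ni (s j) = j + 1) ∧ s (nl D) = 0 ∧ (∀ e : D, e + e = e → ∃ j ≤ nl D, e = s j) ∧
      ∀ a : D, ∃ j ≤ nl D, a ≤ s j ∧ ∀ b : D, b + a = b → b + s j = b

/-- the levels of a pseudometric -/
def T_PLV : Prop :=
  ∀ (D V : Type) [LinearOrder D] [AddCommMonoid D] [DM D] (d : V → V → D), IsPM d →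
    PLev (nl D) (ml d)

/-- short paths -/
def T_SHO : Prop :=
  ∀ (D X : Type) [LinearOrder D] [AddCommMonoid D] [DM D] (w : X → X → D) (lam : X → X → ℕ)
    (s : ℕ → D), PLev (nl D) lam → (∀ j, s j + s j = s j) →
    (∀ i j, i ≤ j → j ≤ nl D → s j ≤ s i) → (∀ x y, w x y ≤ s (lam x y)) →
    (∀ j ≤ nl D, ∀ x y, w x y ≤ s j → j ≤ lam x y) →
    (∀ a : D, ∃ j ≤ nl D, a ≤ s j ∧ ∀ b : D, b + a = b → b + s j = b) →
    ∀ (x : X) (l : List X), ∃ l' : List X, l'.length ≤ 2 * Nat.card D + 1 ∧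
      (x :: l').getLast? = (x :: l).getLast? ∧ len w x l' ≤ len w x l

/-- the metric of the shortest paths -/
def T_SPM : Prop :=
  ∀ (D X : Type) [LinearOrder D] [AddCommMonoid D] [DM D] (w : X → X → D),
    (∀ x y, w x y = w y x) → ∃ d : X → X → D, IsPM d ∧ (∀ x y, d x y ≤ w x y) ∧
      ∀ x y, ∃ l : List X, (x :: l).getLast? = some y ∧ d x y = len w x l

/-- finite pseudometric spaces map isometrically to Urysohn spaces, with given values on a subset -/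
def T_ISO : Prop :=
  ∀ (D V : Type) [LinearOrder D] [AddCommMonoid D] [DM D] (d : V → V → D), Ury d →
    ∀ (W : Type) [Finite W] (e : W → W → D), IsPM e → ∀ (A : Set W) (y : W → V),
      (∀ a ∈ A, ∀ b ∈ A, d (y a) (y b) = e a b) →
      ∃ f : W → V, (∀ a b, d (f a) (f b) = e a b) ∧ ∀ a ∈ A, f a = y a

/-- types in the structure of a metric space -/
def T_TPM : Prop :=
  ∀ (D V J : Type) [LinearOrder D] [AddCommMonoid D] [DM D] [Finite D] (d : V → V → D), IsM d →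
    (∀ x y : J → V, tp (mst d) x = tp (mst d) y ↔ ∀ a b, d (x a) (x b) = d (y a) (y b)) ∧
    ∀ (k : ℕ) (x : Fin k → V) (𝕏 : Str (sigOf D (fun _ => Fin 2)) (Fin k)),
      IsEmb 𝕏 (mst d) x → ∀ y : Fin k → V, (∀ a b, d (y a) (y b) = d (x a) (x b)) →
        IsEmb 𝕏 (mst d) y

/-- homogeneity of Urysohn spaces -/
def T_HMM : Prop :=
  ∀ (D V : Type) [LinearOrder D] [AddCommMonoid D] [DM D] [Finite D] (d : V → V → D), Ury d →
    Hmg (mst d)

/-- Urysohn spaces: the hypotheses without the local completions -/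
def T_H0M : Prop :=
  ∀ (D V : Type) [LinearOrder D] [AddCommMonoid D] [DM D] [Finite D] [Countable V]
    (d : V → V → D), Ury d → HV0 (mst d) (nl D) (ml d)

/-- relative local completions of Urysohn spaces -/
def T_RZM : Prop :=
  ∀ (D V : Type) [LinearOrder D] [AddCommMonoid D] [DM D] [Finite D] (d : V → V → D), Ury d →
    ∀ r : ℕ, ∃ M : ℕ, RLZ (mst d) (nl D) (ml d) r M

/-- Urysohn spaces -/
def T_HVM : Prop :=
  ∀ (D V : Type) [LinearOrder D] [AddCommMonoid D] [DM D] [Finite D] [Countable V]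
    (d : V → V → D), Ury d → HV (mst d) (nl D) (ml d)

/-- Urysohn spaces exist -/
def T_EUR : Prop :=
  ∀ (D : Type) [LinearOrder D] [AddCommMonoid D] [DM D], (∃ a : D, a ≠ 0) →
    ∃ d : ℕ → ℕ → D, Ury d

/-! ### Metric spaces with finitely many real distances -/

section real

variable {V : Type}

/-- Urysohn spaces with distances in the finite set `S` of real numbers: metric spaces with the
extension property for one-point extensions with distances in `S` -/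
structure UryR (S : Finset ℝ) (d : V → V → ℝ) : Prop where
  ne : Nonempty V
  val : ∀ x y, d x y ∈ S
  eq : ∀ x y, d x y = 0 ↔ x = y
  sym : ∀ x y, d x y = d y x
  tri : ∀ x y z, d x z ≤ d x y + d y z
  pos : ∀ s ∈ S, 0 ≤ s
  ext : ∀ (F : Finset V) (f : V → ℝ), (∀ x ∈ F, f x ∈ S ∧ f x ≠ 0) →
    (∀ x ∈ F, ∀ y ∈ F, f x ≤ f y + d x y ∧ d x y ≤ f x + f y) → ∃ z, ∀ x ∈ F, d z x = f x

/-- the structure of the metric space: a binary relation for each distance -/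
noncomputable def rst (S : Finset ℝ) (d : V → V → ℝ) : Str (sigOf S (fun _ => Fin 2)) V :=
  strOn fun (s : S) z => d (z 0) (z 1) = s

end real

/-- the sum of distances, truncated to the set of distances -/
def T_RAS : Prop :=
  ∀ (V : Type) (S : Finset ℝ) (d : V → V → ℝ), UryR S d →
    ∃ p : S → S → S, (∀ a b c : S, (c : ℝ) ≤ a + b ↔ c ≤ p a b) ∧ (∀ a b, p a b = p b a) ∧
      (∀ a b c, p (p a b) c = p a (p b c)) ∧ ∀ o : S, (o : ℝ) = 0 → ∀ a, p o a = a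

/-- Urysohn spaces with finitely many real distances -/
def T_HVR : Prop :=
  ∀ (V : Type) [Countable V] (S : Finset ℝ) (d : V → V → ℝ), UryR S d →
    ∃ (m : ℕ) (lv : V → V → ℕ), HV (rst S d) m lv

/-! ### Free classes with a chain of equivalence relations -/

section free

variable {V X : Type} {τ : Sig} {m : ℕ}

/-- the positions of the relations of `τ` and of the level relations -/
abbrev CAr (τ : Sig) (m : ℕ) : Fin τ.m ⊕ Fin m → Type
  | Sum.inl l => Fin (τ.ar l)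
  | Sum.inr _ => Fin 2

instance (s : Fin τ.m ⊕ Fin m) : Finite (CAr τ m s) := by
  cases s <;> exact inferInstanceAs (Finite (Fin _))

/-- the relations of `𝕏` and the level relations -/
def cstR (m : ℕ) (𝕏 : Str τ X) (lam : X → X → ℕ) :
    (s : Fin τ.m ⊕ Fin m) → (CAr τ m s → X) → Prop
  | Sum.inl l => fun z => 𝕏 l z
  | Sum.inr j => fun z => lam (z 0) (z 1) = j

/-- the structure with the relations of `𝕏` and the level relations -/
noncomputable def cst (m : ℕ) (𝕏 : Str τ X) (lam : X → X → ℕ) :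
    Str (sigOf (Fin τ.m ⊕ Fin m) (CAr τ m)) X :=
  strOn (Ar := CAr τ m) (cstR m 𝕏 lam)

/-- structures with a chain of equivalence relations, the last of which is the equality, and
relations of tuples of different elements -/
structure LStr (m : ℕ) (𝕏 : Str τ X) (lam : X → X → ℕ) : Prop where
  lev : Lev m lam
  irr : ∀ l z, 𝕏 l z → Injective z

/-- a configuration: relations and levels -/
abbrev Cnf (τ : Sig) : Type := Σ k : ℕ, Str τ (Fin k) × (Fin k → Fin k → ℕ)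

/-- There is a copy of the configuration `Y`. -/
def Cop (Y : Cnf τ) (𝕏 : Str τ X) (lam : X → X → ℕ) : Prop :=
  ∃ f : Fin Y.1 → X, IsHom Y.2.1 𝕏 f ∧ ∀ a b, lam (f a) (f b) = Y.2.2 a b

/-- Each two elements of the configuration are in a tuple of a relation. -/
def Ird (Y : Cnf τ) : Prop :=
  ∀ a b : Fin Y.1, a ≠ b → ∃ (l : Fin τ.m) (z : Fin (τ.ar l) → Fin Y.1) (i j : Fin (τ.ar l)),
    Y.2.1 l z ∧ z i = a ∧ z j = b

/-- The countable homogeneous structure `𝔹` with the levels `lv`: its finite substructures are the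
finite structures with levels without copies of the irreducible configurations in `F`. -/
structure FrC (m : ℕ) (F : Set (Cnf τ)) (𝔹 : Str τ V) (lv : V → V → ℕ) : Prop where
  ne : Nonempty V
  cnt : Countable V
  ar : ∀ l, 2 ≤ τ.ar l
  fin : ∃ K, ∀ Y ∈ F, Y.1 ≤ K
  ird : ∀ Y ∈ F, Ird Y
  hmg : Hmg (cst m 𝔹 lv)
  str : LStr m 𝔹 lv
  age : ∀ (n : ℕ) (𝕏 : Str τ (Fin n)) (lam : Fin n → Fin n → ℕ),
    (∃ f : Fin n → V, IsEmb 𝕏 𝔹 f ∧ ∀ x y, lv (f x) (f y) = lam x y) ↔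
      LStr m 𝕏 lam ∧ ∀ Y ∈ F, ¬ Cop Y 𝕏 lam

end free

/-- types in the structure with levels -/
def T_TPC : Prop :=
  ∀ (τ : Sig) (V J : Type) (m : ℕ) (𝔹 : Str τ V) (lv : V → V → ℕ), Lev m lv →
    ∀ x y : J → V, tp (cst m 𝔹 lv) x = tp (cst m 𝔹 lv) y ↔
      tp 𝔹 x = tp 𝔹 y ∧ ∀ a b, lv (x a) (x b) = lv (y a) (y b)

/-- free classes with a chain of equivalence relations: the hypotheses without the local
completions -/
def T_H0F : Prop :=
  ∀ (τ : Sig) (V : Type) (m : ℕ) (F : Set (Cnf τ)) (𝔹 : Str τ V) (lv : V → V → ℕ), FrC m F 𝔹 lv →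
    HV0 (cst m 𝔹 lv) m lv

/-- relative local completions of free classes with a chain of equivalence relations -/
def T_RZF : Prop :=
  ∀ (τ : Sig) (V : Type) (m : ℕ) (F : Set (Cnf τ)) (𝔹 : Str τ V) (lv : V → V → ℕ), FrC m F 𝔹 lv →
    ∀ r : ℕ, ∃ M : ℕ, RLZ (cst m 𝔹 lv) m lv r M

/-- free classes with a chain of equivalence relations -/
def T_HVF : Prop :=
  ∀ (τ : Sig) (V : Type) (m : ℕ) (F : Set (Cnf τ)) (𝔹 : Str τ V) (lv : V → V → ℕ), FrC m F 𝔹 lv →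
    HV (cst m 𝔹 lv) m lv

/-- Free classes with a chain of equivalence relations have limits. -/
def T_EFR : Prop :=
  ∀ (τ : Sig) (m : ℕ) (F : Set (Cnf τ)), 1 ≤ m → (∀ l, 2 ≤ τ.ar l) → (∃ K, ∀ Y ∈ F, Y.1 ≤ K) →
    (∀ Y ∈ F, Ird Y ∧ 2 ≤ Y.1) → ∃ (𝔹 : Str τ ℕ) (lv : ℕ → ℕ → ℕ), FrC m F 𝔹 lv

/-! ### Lexicographic products -/

section lexi

variable {V₁ V₂ X : Type} {τ₁ τ₂ : Sig}

/-- the positions of the relations of the lexicographic product -/
abbrev LAr (τ₁ τ₂ : Sig) : Fin τ₁.m ⊕ Fin τ₂.m ⊕ Unit → Type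
  | Sum.inl l => Fin (τ₁.ar l)
  | Sum.inr (Sum.inl l) => Fin (τ₂.ar l)
  | Sum.inr (Sum.inr _) => Fin 2

instance (s : Fin τ₁.m ⊕ Fin τ₂.m ⊕ Unit) : Finite (LAr τ₁ τ₂ s) := by
  rcases s with l | l | u <;> exact inferInstanceAs (Finite (Fin _))

/-- the relations of the lexicographic product -/
def lexR (𝔹₁ : Str τ₁ V₁) (𝔹₂ : Str τ₂ V₂) :
    (s : Fin τ₁.m ⊕ Fin τ₂.m ⊕ Unit) → (LAr τ₁ τ₂ s → V₁ × V₂) → Prop
  | Sum.inl l => fun z => 𝔹₁ l (fun i => (z i).1)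
  | Sum.inr (Sum.inl l) => fun z => (∀ i j, (z i).1 = (z j).1) ∧ 𝔹₂ l (fun i => (z i).2)
  | Sum.inr (Sum.inr _) => fun z => (z 0).1 = (z 1).1

/-- the lexicographic product: copies of `𝔹₂` in place of the elements of `𝔹₁` -/
noncomputable def lex (𝔹₁ : Str τ₁ V₁) (𝔹₂ : Str τ₂ V₂) :
    Str (sigOf (Fin τ₁.m ⊕ Fin τ₂.m ⊕ Unit) (LAr τ₁ τ₂)) (V₁ × V₂) :=
  strOn (Ar := LAr τ₁ τ₂) (lexR 𝔹₁ 𝔹₂)

open Classical in
/-- the levels of the lexicographic product -/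
noncomputable def llv (m₁ : ℕ) (lv₁ : V₁ → V₁ → ℕ) (lv₂ : V₂ → V₂ → ℕ) (x y : V₁ × V₂) : ℕ :=
  if x.1 = y.1 then m₁ + lv₂ x.2 y.2 else lv₁ x.1 y.1

end lexi

/-- types in lexicographic products -/
def T_LTP : Prop :=
  ∀ (τ₁ τ₂ : Sig) (V₁ V₂ J : Type) (𝔹₁ : Str τ₁ V₁) (𝔹₂ : Str τ₂ V₂), (∀ l, 1 ≤ τ₂.ar l) →
    ∀ x y : J → V₁ × V₂, tp (lex 𝔹₁ 𝔹₂) x = tp (lex 𝔹₁ 𝔹₂) y ↔
      tp 𝔹₁ (fun a => (x a).1) = tp 𝔹₁ (fun a => (y a).1) ∧
        ∀ a₀ : J, tp 𝔹₂ (fun a : {a : J // (x a).1 = (x a₀).1} => (x a).2) =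
          tp 𝔹₂ (fun a : {a : J // (x a).1 = (x a₀).1} => (y a).2)

/-- homogeneity of lexicographic products -/
def T_LHM : Prop :=
  ∀ (τ₁ τ₂ : Sig) (V₁ V₂ : Type) (𝔹₁ : Str τ₁ V₁) (𝔹₂ : Str τ₂ V₂), (∀ l, 1 ≤ τ₂.ar l) →
    Hmg 𝔹₁ → Hmg 𝔹₂ → Hmg (lex 𝔹₁ 𝔹₂)

/-- lexicographic products: the hypotheses without the local completions -/
def T_H0L : Prop :=
  ∀ (τ₁ τ₂ : Sig) (V₁ V₂ : Type) (𝔹₁ : Str τ₁ V₁) (𝔹₂ : Str τ₂ V₂) (m₁ m₂ : ℕ)
    (lv₁ : V₁ → V₁ → ℕ) (lv₂ : V₂ → V₂ → ℕ), HV0 𝔹₁ m₁ lv₁ → HV0 𝔹₂ m₂ lv₂ →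
    HV0 (lex 𝔹₁ 𝔹₂) (m₁ + m₂) (llv m₁ lv₁ lv₂)

/-- relative local completions of lexicographic products -/
def T_RZL : Prop :=
  ∀ (τ₁ τ₂ : Sig) (V₁ V₂ : Type) (𝔹₁ : Str τ₁ V₁) (𝔹₂ : Str τ₂ V₂) (m₁ m₂ : ℕ)
    (lv₁ : V₁ → V₁ → ℕ) (lv₂ : V₂ → V₂ → ℕ), HV0 𝔹₁ m₁ lv₁ → HV0 𝔹₂ m₂ lv₂ →
    ∀ r M₁ M₂ : ℕ, RLZ 𝔹₁ m₁ lv₁ r M₁ → RLZ 𝔹₂ m₂ lv₂ r M₂ →
      RLZ (lex 𝔹₁ 𝔹₂) (m₁ + m₂) (llv m₁ lv₁ lv₂) r (max M₁ M₂)

/-- lexicographic products -/
def T_LHV : Prop :=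
  ∀ (τ₁ τ₂ : Sig) (V₁ V₂ : Type) (𝔹₁ : Str τ₁ V₁) (𝔹₂ : Str τ₂ V₂) (m₁ m₂ : ℕ)
    (lv₁ : V₁ → V₁ → ℕ) (lv₂ : V₂ → V₂ → ℕ), HV 𝔹₁ m₁ lv₁ → HV 𝔹₂ m₂ lv₂ →
    HV (lex 𝔹₁ 𝔹₂) (m₁ + m₂) (llv m₁ lv₁ lv₂)

end Pool.Agent.H57.CM
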